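import Mathlib

/-!
# MP_6b1724_al, Q1: coset automatic does not imply strongly coset automatic

Let `G = F₂ × F₂` and let `H` be the kernel of the homomorphism to `ℤ` which sends each of the four
standard free generators to `1`. Then `H` is a normal, finitely generated subgroup of `G`,
the pair `(G, H)` is coset automatic, and `(G, H)` is not strongly coset automatic with respect to
any finite generating set.
-/

set_option autoImplicit false

namespace Pool.Agent.Results.MP_6b1724_al.NotStrong

section defs

variable {G : Type} [Group G]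

/-- The alphabet `A = X ∪ X⁻¹`. -/
abbrev Alph (X : Set G) : Type := {g : G // g ∈ X ∨ g⁻¹ ∈ X}

/-- The element of `G` represented by a word over `A`. -/
def ev {X : Set G} (w : List (Alph X)) : G := (w.map Subtype.val).prod

/-- The pair `(v, w)` read synchronously, the shorter word padded at the end by `none`. -/
def conv {A : Type} : List A → List A → List (Option A × Option A)
  | [], [] => []
  | a :: v, [] => (some a, none) :: conv v []
  | [], b :: w => (none, some b) :: conv [] w
  | a :: v, b :: w => (some a, some b) :: conv v w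

/-- `d_Γ(g, h) ≤ n` in the Cayley graph of `G` with respect to `X`. -/
def DistLE (X : Set G) (n : ℕ) (g h : G) : Prop :=
  ∃ l : List (Alph X), l.length ≤ n ∧ g * ev l = h

/-- `(G, H)` has an automatic coset system with respect to `X`: a regular language `L` (the language
of `W`) and regular languages `M a` for `a ∈ A ∪ {ε}` (with `none` for `ε`). -/
def HasAutomaticCosetSystem (X : Set G) (H : Subgroup G) : Prop :=
  ∃ (L : Language (Alph X)) (M : Option (Alph X) → Language (Option (Alph X) × Option (Alph X))),
    L.IsRegular ∧ (∀ a, (M a).IsRegular) ∧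
    (∀ g : G, ∃ w ∈ L, ∃ h ∈ H, ev w = h * g) ∧
    ∀ (a : Option (Alph X)) (v w : List (Alph X)), conv v w ∈ M a ↔
      v ∈ L ∧ w ∈ L ∧ ∃ h ∈ H, h * (ev v * (a.elim 1 Subtype.val)) = ev w

/-- `(G, H)` has a strong automatic coset system with respect to `X`. -/
def HasStrongAutomaticCosetSystem (X : Set G) (H : Subgroup G) : Prop :=
  ∃ (L : Language (Alph X)) (K : ℕ),
    L.IsRegular ∧ (∀ g : G, ∃ w ∈ L, ∃ h ∈ H, ev w = h * g) ∧
    ∀ v ∈ L, ∀ w ∈ L, ∀ h ∈ H, DistLE X 1 (ev v) (h * ev w) →
      ∀ i : ℕ, DistLE X K (ev (v.take i)) (h * ev (w.take i))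

/-- `(G, H)` is coset automatic. -/
def CosetAutomatic (H : Subgroup G) : Prop :=
  ∃ X : Set G, X.Finite ∧ Subgroup.closure X = ⊤ ∧ HasAutomaticCosetSystem X H

/-- `(G, H)` is strongly coset automatic. -/
def StronglyCosetAutomatic (H : Subgroup G) : Prop :=
  ∃ X : Set G, X.Finite ∧ Subgroup.closure X = ⊤ ∧ HasStrongAutomaticCosetSystem X H

end defs

/-- The free group of rank two. -/
abbrev F2 : Type := FreeGroup (Fin 2)

/-- The exponent sum `F₂ → ℤ`. -/
def expSum : F2 →* Multiplicative ℤ := FreeGroup.lift fun _ => Multiplicative.ofAdd 1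

/-- The homomorphism `F₂ × F₂ → ℤ` sending the four free generators to `1`. -/
def totalExpSum : F2 × F2 →* Multiplicative ℤ :=
  (expSum.comp (MonoidHom.fst F2 F2)) * (expSum.comp (MonoidHom.snd F2 F2))

section regular

variable {A : Type} [DecidableEq A]

/-- The automaton for `p*`. -/
def dStar (p : A) : DFA A Bool := ⟨fun s a => s && decide (a = p), true, {true}⟩

theorem dStar_false (p : A) (x : List A) : (dStar p).evalFrom false x = false := by
  induction x with
  | nil => rfl
  | cons a x ih =>
    show (dStar p).evalFrom ((dStar p).step false a) x = false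
    have : (dStar p).step false a = false := by simp [dStar]
    rw [this, ih]

theorem dStar_true (p : A) (x : List A) :
    (dStar p).evalFrom true x = true ↔ ∃ m : ℕ, x = List.replicate m p := by
  induction x with
  | nil => exact ⟨fun _ => ⟨0, rfl⟩, fun _ => rfl⟩
  | cons a x ih =>
    show (dStar p).evalFrom ((dStar p).step true a) x = true ↔ _
    by_cases h : a = p
    · have : (dStar p).step true a = true := by simp [dStar, h]
      rw [this, ih]
      constructor
      · rintro ⟨m, rfl⟩; exact ⟨m + 1, by rw [h, List.replicate_succ]⟩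
      · rintro ⟨m, hm⟩
        cases m with
        | zero => simp at hm
        | succ m =>
          rw [List.replicate_succ, List.cons.injEq] at hm
          exact ⟨m, hm.2⟩
    · have : (dStar p).step true a = false := by simp [dStar, h]
      rw [this, dStar_false]
      simp only [Bool.false_eq_true, false_iff, not_exists]
      intro m hm
      cases m with
      | zero => simp at hm
      | succ m =>
        rw [List.replicate_succ, List.cons.injEq] at hm
        exact h hm.1

/-- The language `p*`. -/
def starL (p : A) : Language A := {x : List A | ∃ m : ℕ, x = List.replicate m p}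

theorem reg_star (p : A) : (starL p).IsRegular := by
  refine ⟨Bool, inferInstance, dStar p, ?_⟩
  ext x
  exact dStar_true p x

/-- The automaton for `p* q`. -/
def dTail (p q : A) : DFA A (Option Bool) :=
  ⟨fun s a => if s = none ∧ a = p then none else if s = none ∧ a = q then some true else some false,
    none, {some true}⟩

theorem dTail_false (p q : A) (x : List A) :
    (dTail p q).evalFrom (some false) x = some false := by
  induction x with
  | nil => rfl
  | cons a x ih =>
    show (dTail p q).evalFrom ((dTail p q).step (some false) a) x = _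
    have : (dTail p q).step (some false) a = some false := by simp [dTail]
    rw [this, ih]

theorem dTail_true (p q : A) (x : List A) :
    (dTail p q).evalFrom (some true) x = some true ↔ x = [] := by
  cases x with
  | nil => simp
  | cons a x =>
    have e : (dTail p q).evalFrom (some true) (a :: x) =
      (dTail p q).evalFrom ((dTail p q).step (some true) a) x := rfl
    have : (dTail p q).step (some true) a = some false := by simp [dTail]
    rw [e, this, dTail_false]
    simp

theorem dTail_none (p q : A) (hpq : q ≠ p) (x : List A) :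
    (dTail p q).evalFrom none x = some true ↔ ∃ m : ℕ, x = List.replicate m p ++ [q] := by
  induction x with
  | nil =>
    constructor
    · intro h
      simp at h
    · rintro ⟨m, hm⟩; simp at hm
  | cons a x ih =>
    have e : (dTail p q).evalFrom none (a :: x) =
      (dTail p q).evalFrom ((dTail p q).step none a) x := rfl
    rw [e]
    by_cases h : a = p
    · have : (dTail p q).step none a = none := by simp [dTail, h]
      rw [this, ih]
      constructor
      · rintro ⟨m, rfl⟩; exact ⟨m + 1, by rw [h, List.replicate_succ]; rfl⟩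
      · rintro ⟨m, hm⟩
        cases m with
        | zero =>
          simp only [List.replicate_zero, List.nil_append, List.cons.injEq] at hm
          exact absurd (hm.1.symm.trans h) hpq
        | succ m =>
          rw [List.replicate_succ, List.cons_append, List.cons.injEq] at hm
          exact ⟨m, hm.2⟩
    · by_cases h' : a = q
      · have : (dTail p q).step none a = some true := by simp [dTail, h', hpq]
        rw [this, dTail_true]
        constructor
        · rintro rfl; exact ⟨0, by simp [h']⟩
        · rintro ⟨m, hm⟩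
          cases m with
          | zero => simpa [h'] using hm
          | succ m =>
            rw [List.replicate_succ, List.cons_append, List.cons.injEq] at hm
            exact absurd hm.1 h
      · have : (dTail p q).step none a = some false := by simp [dTail, h, h']
        rw [this, dTail_false]
        simp only [Option.some.injEq, Bool.false_eq_true, false_iff, not_exists]
        intro m hm
        cases m with
        | zero =>
          simp only [List.replicate_zero, List.nil_append, List.cons.injEq] at hm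
          exact h' hm.1
        | succ m =>
          rw [List.replicate_succ, List.cons_append, List.cons.injEq] at hm
          exact h hm.1

/-- The language `p* q`. -/
def tailL (p q : A) : Language A := {x : List A | ∃ m : ℕ, x = List.replicate m p ++ [q]}

theorem reg_tail (p q : A) (hpq : q ≠ p) : (tailL p q).IsRegular := by
  refine ⟨Option Bool, inferInstance, dTail p q, ?_⟩
  ext x
  exact dTail_none p q hpq x

end regular

section convolution

variable {A : Type}

theorem conv_fst (v w : List A) : (conv v w).filterMap Prod.fst = v := by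
  induction v generalizing w with
  | nil =>
    induction w with
    | nil => simp [conv]
    | cons b w ih => simpa [conv] using ih
  | cons a v ih =>
    cases w with
    | nil => simp [conv, ih]
    | cons b w => simp [conv, ih]

theorem conv_snd (v w : List A) : (conv v w).filterMap Prod.snd = w := by
  induction w generalizing v with
  | nil =>
    induction v with
    | nil => simp [conv]
    | cons b w ih => simpa [conv] using ih
  | cons a v ih =>
    cases v with
    | nil => simp [conv, ih]
    | cons b w => simp [conv, ih]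

theorem conv_inj {v w v' w' : List A} (h : conv v w = conv v' w') : v = v' ∧ w = w' := by
  constructor
  · rw [← conv_fst v w, h, conv_fst]
  · rw [← conv_snd v w, h, conv_snd]

theorem conv_eq (a b : A) (m : ℕ) : conv (List.replicate m a) (List.replicate m b) =
    List.replicate m (some a, some b) := by
  induction m with
  | zero => simp [conv]
  | succ m ih => simp [List.replicate_succ, conv, ih]

theorem conv_left (a b : A) (m : ℕ) : conv (List.replicate (m + 1) a) (List.replicate m b) =
    List.replicate m (some a, some b) ++ [(some a, none)] := by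
  induction m with
  | zero => simp [conv]
  | succ m ih =>
    rw [List.replicate_succ, List.replicate_succ (n := m) (a := b), conv, ih,
      List.replicate_succ, List.cons_append]

theorem conv_right (a b : A) (m : ℕ) : conv (List.replicate m a) (List.replicate (m + 1) b) =
    List.replicate m (some a, some b) ++ [(none, some b)] := by
  induction m with
  | zero => simp [conv]
  | succ m ih =>
    rw [List.replicate_succ, List.replicate_succ (n := m + 1) (a := b), conv, ih,
      List.replicate_succ, List.cons_append]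

/-- The normal form of the integer `n` with letters `t`, `t'`. -/
def nf (t t' : A) (n : ℤ) : List A :=
  if 0 ≤ n then List.replicate n.toNat t else List.replicate (-n).toNat t'

theorem nf_nat (t t' : A) (m : ℕ) : nf t t' m = List.replicate m t := by
  simp [nf]

theorem nf_neg (t t' : A) (m : ℕ) : nf t t' (-(m : ℤ)) = List.replicate m t' := by
  cases m with
  | zero => simp [nf]
  | succ m =>
    unfold nf
    rw [if_neg (by omega)]
    congr 1

theorem int_cases (n : ℤ) : (∃ m : ℕ, n = m) ∨ ∃ m : ℕ, n = -((m : ℤ) + 1) := by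
  rcases le_or_gt 0 n with h | h
  · exact Or.inl ⟨n.toNat, by omega⟩
  · exact Or.inr ⟨(-n - 1).toNat, by omega⟩

/-- The language of all normal forms. -/
def nfL (t t' : A) : Language A := {x : List A | ∃ n : ℤ, x = nf t t' n}

theorem reg_L [DecidableEq A] (t t' : A) : (nfL t t').IsRegular := by
  have h : nfL t t' =
      starL t + starL t' := by
    ext x
    rw [Language.mem_add]
    constructor
    · rintro ⟨n, rfl⟩
      rcases int_cases n with ⟨m, rfl⟩ | ⟨m, rfl⟩
      · exact Or.inl ⟨m, nf_nat _ _ _⟩
      · exact Or.inr ⟨m + 1, nf_neg _ _ (m + 1)⟩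
    · rintro (⟨m, rfl⟩ | ⟨m, rfl⟩)
      · exact ⟨m, (nf_nat _ _ _).symm⟩
      · exact ⟨-m, (nf_neg _ _ _).symm⟩
  rw [h]
  exact (reg_star t).add (reg_star t')

/-- The language of pairs of normal forms of `n` and `n + δ`. -/
def P (t t' : A) (δ : ℤ) : Language (Option A × Option A) :=
  {x | ∃ n : ℤ, x = conv (nf t t' n) (nf t t' (n + δ))}

theorem reg_P_zero [DecidableEq A] (t t' : A) : (P t t' 0).IsRegular := by
  have h : P t t' 0 =
      starL (some t, some t) + starL (some t', some t') := by
    ext x
    rw [Language.mem_add]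
    constructor
    · rintro ⟨n, rfl⟩
      rw [add_zero]
      rcases int_cases n with ⟨m, rfl⟩ | ⟨m, rfl⟩
      · exact Or.inl ⟨m, by rw [nf_nat, conv_eq]⟩
      · refine Or.inr ⟨m + 1, ?_⟩
        rw [show -((m : ℤ) + 1) = -((m + 1 : ℕ) : ℤ) by push_cast; ring, nf_neg, conv_eq]
    · rintro (⟨m, rfl⟩ | ⟨m, rfl⟩)
      · exact ⟨m, by rw [add_zero, nf_nat, conv_eq]⟩
      · exact ⟨-m, by rw [add_zero, nf_neg, conv_eq]⟩
  rw [h]
  exact (reg_star _).add (reg_star _)

theorem reg_P_one [DecidableEq A] (t t' : A) : (P t t' 1).IsRegular := by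
  have h : P t t' 1 =
      tailL (some t, some t) (none, some t) + tailL (some t', some t') (some t', none) := by
    ext x
    rw [Language.mem_add]
    constructor
    · rintro ⟨n, rfl⟩
      rcases int_cases n with ⟨m, rfl⟩ | ⟨m, rfl⟩
      · refine Or.inl ⟨m, ?_⟩
        rw [show (m : ℤ) + 1 = ((m + 1 : ℕ) : ℤ) by push_cast; ring, nf_nat, nf_nat, conv_right]
      · refine Or.inr ⟨m, ?_⟩
        rw [show -((m : ℤ) + 1) + 1 = -(m : ℤ) by ring,
          show -((m : ℤ) + 1) = -((m + 1 : ℕ) : ℤ) by push_cast; ring, nf_neg, nf_neg, conv_left]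
    · rintro (⟨m, rfl⟩ | ⟨m, rfl⟩)
      · refine ⟨m, ?_⟩
        rw [show (m : ℤ) + 1 = ((m + 1 : ℕ) : ℤ) by push_cast; ring, nf_nat, nf_nat, conv_right]
      · refine ⟨-((m : ℤ) + 1), ?_⟩
        rw [show -((m : ℤ) + 1) + 1 = -(m : ℤ) by ring,
          show -((m : ℤ) + 1) = -((m + 1 : ℕ) : ℤ) by push_cast; ring, nf_neg, nf_neg, conv_left]
  rw [h]
  exact (reg_tail _ _ (by simp)).add (reg_tail _ _ (by simp))

theorem reg_P_neg [DecidableEq A] (t t' : A) : (P t t' (-1)).IsRegular := by
  have h : P t t' (-1) =
      tailL (some t, some t) (some t, none) + tailL (some t', some t') (none, some t') := by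
    ext x
    rw [Language.mem_add]
    constructor
    · rintro ⟨n, rfl⟩
      rcases int_cases (n - 1) with ⟨m, hm⟩ | ⟨m, hm⟩
      · refine Or.inl ⟨m, ?_⟩
        obtain rfl : n = (m : ℤ) + 1 := by omega
        rw [show (m : ℤ) + 1 + -1 = (m : ℤ) by ring,
          show (m : ℤ) + 1 = ((m + 1 : ℕ) : ℤ) by push_cast; ring, nf_nat, nf_nat, conv_left]
      · refine Or.inr ⟨m, ?_⟩
        obtain rfl : n = -(m : ℤ) := by omega
        rw [show -(m : ℤ) + -1 = -((m + 1 : ℕ) : ℤ) by push_cast; ring, nf_neg, nf_neg, conv_right]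
    · rintro (⟨m, rfl⟩ | ⟨m, rfl⟩)
      · refine ⟨(m : ℤ) + 1, ?_⟩
        rw [show (m : ℤ) + 1 + -1 = (m : ℤ) by ring,
          show (m : ℤ) + 1 = ((m + 1 : ℕ) : ℤ) by push_cast; ring, nf_nat, nf_nat, conv_left]
      · refine ⟨-(m : ℤ), ?_⟩
        rw [show -(m : ℤ) + -1 = -((m + 1 : ℕ) : ℤ) by push_cast; ring, nf_neg, nf_neg, conv_right]
  rw [h]
  exact (reg_tail _ _ (by simp)).add (reg_tail _ _ (by simp))

end convolution

/-- The standard free generators. -/
def ga : F2 := FreeGroup.of 0
/-- The second standard free generator. -/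
def gb : F2 := FreeGroup.of 1

/-- The standard generating set of `F₂ × F₂`. -/
def X0 : Set (F2 × F2) := {(ga, 1), (gb, 1), (1, ga), (1, gb)}

theorem expSum_ga : expSum ga = Multiplicative.ofAdd 1 := by simp [expSum, ga]
theorem expSum_gb : expSum gb = Multiplicative.ofAdd 1 := by simp [expSum, gb]

theorem total_apply (g : F2 × F2) : totalExpSum g = expSum g.1 * expSum g.2 := rfl

theorem total_X0 {g : F2 × F2} (hg : g ∈ X0) : totalExpSum g = Multiplicative.ofAdd 1 := by
  rcases hg with h | h | h | h <;> rw [h] <;> simp [total_apply, expSum_ga, expSum_gb]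

/-- The letter `t = (a, 1)`. -/
def lt : Alph X0 := ⟨(ga, 1), Or.inl (by simp [X0])⟩
/-- The letter `(a, 1)⁻¹`. -/
def lt' : Alph X0 := ⟨(ga, 1)⁻¹, Or.inr (by simp [X0])⟩

theorem ev_nf (n : ℤ) : ev (nf lt lt' n) = (ga, 1) ^ n := by
  rcases int_cases n with ⟨m, rfl⟩ | ⟨m, rfl⟩
  · rw [nf_nat]; simp [ev, lt]
  · rw [show -((m : ℤ) + 1) = -((m + 1 : ℕ) : ℤ) by push_cast; ring, nf_neg, zpow_neg,
      zpow_natCast, ← inv_pow]
    simp [ev, lt']

theorem total_nf (n : ℤ) : totalExpSum (ev (nf lt lt' n)) = Multiplicative.ofAdd n := by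
  rw [ev_nf, map_zpow, total_X0 (by simp [X0]), ← ofAdd_zsmul]
  simp

theorem rep (g : F2 × F2) : ∃ h ∈ totalExpSum.ker, ev (nf lt lt' (totalExpSum g).toAdd) = h * g := by
  refine ⟨ev (nf lt lt' (totalExpSum g).toAdd) * g⁻¹, ?_, by group⟩
  rw [MonoidHom.mem_ker, map_mul, total_nf, map_inv]
  simp

theorem cosetAutomatic : HasAutomaticCosetSystem X0 totalExpSum.ker := by
  classical
  refine ⟨nfL lt lt',
    fun a => P lt lt' (totalExpSum (a.elim 1 Subtype.val)).toAdd, reg_L _ _, ?_, ?_, ?_⟩
  · rintro (_ | ⟨a, ha | ha⟩)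
    · simp only [Option.elim_none, map_one, toAdd_one]
      exact reg_P_zero _ _
    · simp only [Option.elim_some, total_X0 ha, toAdd_ofAdd]
      exact reg_P_one _ _
    · have h := total_X0 ha
      rw [map_inv, inv_eq_iff_eq_inv] at h
      simp only [Option.elim_some, h, toAdd_inv, toAdd_ofAdd]
      exact reg_P_neg _ _
  · intro g
    exact ⟨_, ⟨_, rfl⟩, rep g⟩
  · intro a v w
    constructor
    · rintro ⟨n, hn⟩
      obtain ⟨rfl, rfl⟩ := conv_inj hn
      refine ⟨⟨_, rfl⟩, ⟨_, rfl⟩, ev (nf lt lt' (n + (totalExpSum (a.elim 1 Subtype.val)).toAdd)) *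
        (ev (nf lt lt' n) * (a.elim 1 Subtype.val))⁻¹, ?_, by group⟩
      rw [MonoidHom.mem_ker, map_mul, total_nf, map_inv, map_mul, total_nf]
      simp
    · rintro ⟨⟨n, rfl⟩, ⟨n', rfl⟩, h, hh, he⟩
      rw [MonoidHom.mem_ker] at hh
      have h1 := congrArg totalExpSum he
      rw [map_mul, hh, one_mul, map_mul, total_nf, total_nf] at h1
      refine ⟨n, ?_⟩
      have h2 := congrArg Multiplicative.toAdd h1
      rw [toAdd_mul, toAdd_ofAdd, toAdd_ofAdd] at h2
      rw [h2]

section strong

variable {G : Type} [Group G]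

theorem ev_append {X : Set G} (v w : List (Alph X)) : ev (v ++ w) = ev v * ev w := by
  simp [ev]

theorem DistLE.mul {X : Set G} {m n : ℕ} {g h : G} (hg : DistLE X m 1 g) (hh : DistLE X n 1 h) :
    DistLE X (m + n) 1 (g * h) := by
  obtain ⟨l, hl, e⟩ := hg
  obtain ⟨l', hl', e'⟩ := hh
  refine ⟨l ++ l', by rw [List.length_append]; omega, ?_⟩
  rw [ev_append, ← e, ← e']
  group

/-- In a strong coset system every word can be pushed through a representative. -/
theorem push {X : Set G} {H : Subgroup G} {L : Language (Alph X)} {K : ℕ}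
    (h1 : ∀ g : G, ∃ w ∈ L, ∃ h ∈ H, ev w = h * g)
    (h2 : ∀ v ∈ L, ∀ w ∈ L, ∀ h ∈ H, DistLE X 1 (ev v) (h * ev w) →
      ∀ i : ℕ, DistLE X K (ev (v.take i)) (h * ev (w.take i)))
    (l : List (Alph X)) : ∀ v ∈ L, ∃ v' ∈ L, ∃ h ∈ H, ev v * ev l = h * ev v' ∧
      DistLE X (K * l.length) 1 h := by
  induction l with
  | nil =>
    intro v hv
    exact ⟨v, hv, 1, H.one_mem, by simp [ev], [], by simp, by simp [ev]⟩
  | cons a l ih =>
    intro v hv
    obtain ⟨w, hw, h, hh, e⟩ := h1 (ev v * a.1)
    have e' : ev v * a.1 = h⁻¹ * ev w := by rw [e]; group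
    have h3 : DistLE X K 1 h⁻¹ := by
      have := h2 v hv w hw h⁻¹ (H.inv_mem hh) ⟨[a], by simp, by rw [← e']; simp [ev]⟩ 0
      simpa [ev] using this
    obtain ⟨v', hv', h', hh', e'', h4⟩ := ih w hw
    refine ⟨v', hv', h⁻¹ * h', H.mul_mem (H.inv_mem hh) hh', ?_, ?_⟩
    · have : ev (a :: l) = a.1 * ev l := by simp [ev]
      rw [this, ← mul_assoc, e', mul_assoc, e'', mul_assoc]
    · have := DistLE.mul h3 h4
      rw [List.length_cons, Nat.mul_succ, Nat.add_comm]
      exact this

/-- In a strong coset system of a normal subgroup `H`, conjugates of an element of `H` by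
representatives are short. -/
theorem conj_short {X : Set G} {H : Subgroup G} [H.Normal] {L : Language (Alph X)} {K : ℕ}
    (h1 : ∀ g : G, ∃ w ∈ L, ∃ h ∈ H, ev w = h * g)
    (h2 : ∀ v ∈ L, ∀ w ∈ L, ∀ h ∈ H, DistLE X 1 (ev v) (h * ev w) →
      ∀ i : ℕ, DistLE X K (ev (v.take i)) (h * ev (w.take i)))
    (l : List (Alph X)) (hl : ev l ∈ H) (v : List (Alph X)) (hv : v ∈ L) :
    DistLE X (K * l.length + K) 1 (ev v * ev l * (ev v)⁻¹) := by
  obtain ⟨v', hv', h, hh, e, h3⟩ := push h1 h2 l v hv
  have h4 : ev v * ev l * (ev v)⁻¹ ∈ H := Subgroup.Normal.conj_mem inferInstance _ hl _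
  set k := h⁻¹ * (ev v * ev l * (ev v)⁻¹) with hk
  have hkH : k ∈ H := H.mul_mem (H.inv_mem hh) h4
  have e1 : ev v' = k * ev v := by
    rw [hk]
    have : ev v' = h⁻¹ * (ev v * ev l) := by rw [e]; group
    rw [this]; group
  have h5 : DistLE X K 1 k := by
    have := h2 v' hv' v hv k hkH ⟨[], by simp, by rw [← e1]; simp [ev]⟩ 0
    simpa [ev] using this
  have h6 := DistLE.mul h3 h5
  have e2 : h * k = ev v * ev l * (ev v)⁻¹ := by rw [hk]; group
  rw [e2] at h6
  exact h6

theorem ball_finite {X : Set G} (hX : X.Finite) (n : ℕ) : {g : G | DistLE X n 1 g}.Finite := by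
  have hfin : Finite (Alph X) := by
    have : Set.Finite {g : G | g ∈ X ∨ g⁻¹ ∈ X} := by
      have h : {g : G | g ∈ X ∨ g⁻¹ ∈ X} = X ∪ X⁻¹ := by ext g; simp
      rw [h]
      exact hX.union hX.inv
    exact this.to_subtype
  have h2 : {g : G | DistLE X n 1 g} ⊆ (fun l : List (Alph X) => ev l) '' {l | l.length ≤ n} := by
    rintro g ⟨l, hl, e⟩
    exact ⟨l, hl, by simpa using e⟩
  exact ((List.finite_length_le (Alph X) n).image _).subset h2

theorem exists_word {X : Set G} (hX : Subgroup.closure X = ⊤) (g : G) :
    ∃ l : List (Alph X), ev l = g := by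
  have hg : g ∈ Submonoid.closure (X ∪ X⁻¹) := by
    rw [← Subgroup.closure_toSubmonoid, hX]; exact Subgroup.mem_top g
  induction hg using Submonoid.closure_induction with
  | mem x hx => exact ⟨[⟨x, hx⟩], by simp [ev]⟩
  | one => exact ⟨[], by simp [ev]⟩
  | mul x y _ _ hx hy =>
    obtain ⟨l, rfl⟩ := hx
    obtain ⟨l', rfl⟩ := hy
    exact ⟨l ++ l', ev_append _ _⟩

end strong

section affine

/-- The map `x ↦ 2x + c` of `ℚ`. -/
def aff (c : ℚ) : Equiv.Perm ℚ where
  toFun x := 2 * x + c
  invFun x := (x - c) / 2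
  left_inv x := by ring
  right_inv x := by ring

/-- The action of `F₂` on `ℚ` by affine maps: the generators act as `2x + 1` and `2x`. -/
def act : F2 →* Equiv.Perm ℚ := FreeGroup.lift fun i => if i = 0 then aff 1 else aff 0

theorem act_spec (g : F2) : ∃ c : ℚ, ∀ x : ℚ, act g x = 2 ^ (expSum g).toAdd * x + c := by
  induction g using FreeGroup.induction_on with
  | C1 => exact ⟨0, fun x => by simp⟩
  | of i =>
    by_cases hi : i = 0
    · exact ⟨1, fun x => by simp [act, expSum, hi, aff]⟩
    · exact ⟨0, fun x => by simp [act, expSum, hi, aff]⟩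
  | inv_of i h =>
    obtain ⟨c, hc⟩ := h
    refine ⟨-(2 ^ (-(expSum (FreeGroup.of i)).toAdd) * c), fun x => ?_⟩
    rw [map_inv, Equiv.Perm.inv_eq_iff_eq, hc, map_inv, toAdd_inv]
    have h2 : (2 : ℚ) ^ (expSum (FreeGroup.of i)).toAdd ≠ 0 := by positivity
    rw [zpow_neg]
    field_simp
    ring
  | mul g h hg hh =>
    obtain ⟨c, hc⟩ := hg
    obtain ⟨d, hd⟩ := hh
    refine ⟨2 ^ (expSum g).toAdd * d + c, fun x => ?_⟩
    rw [map_mul, Equiv.Perm.mul_apply, hd, hc, map_mul, toAdd_mul, zpow_add₀ (by norm_num)]
    ring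

/-- The element `a b⁻¹`. -/
def gc : F2 := ga * gb⁻¹

theorem act_gc (x : ℚ) : act gc x = x + 1 := by
  rw [gc, map_mul, Equiv.Perm.mul_apply, map_inv]
  have h1 : (act gb)⁻¹ x = x / 2 := by
    rw [Equiv.Perm.inv_eq_iff_eq]
    simp [act, gb, aff]
    ring
  rw [h1]
  simp [act, ga, aff]
  ring

theorem act_conj (g : F2) : act (g * gc * g⁻¹) 0 = 2 ^ (expSum g).toAdd := by
  obtain ⟨c, hc⟩ := act_spec g
  rw [map_mul, map_mul, Equiv.Perm.mul_apply, Equiv.Perm.mul_apply, act_gc, map_inv]
  set y := (act g)⁻¹ 0 with hy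
  have h1 : act g y = 0 := by rw [hy, ← Equiv.Perm.mul_apply, mul_inv_cancel, Equiv.Perm.one_apply]
  rw [hc] at h1 ⊢
  linear_combination h1

end affine

theorem total_gc_left : ((gc, 1) : F2 × F2) ∈ totalExpSum.ker := by
  rw [MonoidHom.mem_ker, total_apply]
  simp [gc, expSum_ga, expSum_gb]

theorem total_gc_right : ((1, gc) : F2 × F2) ∈ totalExpSum.ker := by
  rw [MonoidHom.mem_ker, total_apply]
  simp [gc, expSum_ga, expSum_gb]

/-- The pair `(F₂ × F₂, H)` is not strongly coset automatic. -/
theorem not_strong (X : Set (F2 × F2)) (hX : X.Finite) (hgen : Subgroup.closure X = ⊤) :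
    ¬ HasStrongAutomaticCosetSystem X totalExpSum.ker := by
  rintro ⟨L, K, -, h1, h2⟩
  obtain ⟨l1, hl1⟩ := exists_word hgen (gc, 1)
  obtain ⟨l2, hl2⟩ := exists_word hgen (1, gc)
  have f1 := (ball_finite hX (K * l1.length + K)).image (fun g => act g.1 0)
  have f2 := (ball_finite hX (K * l2.length + K)).image (fun g => act g.2 0)
  have f3 := (f1.prod f2).image (fun q : ℚ × ℚ => q.1 * q.2)
  refine Set.infinite_of_injective_forall_mem (f := fun n : ℤ => (2 : ℚ) ^ n) ?_ ?_ f3
  · exact zpow_right_injective₀ (by norm_num) (by norm_num)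
  · intro n
    obtain ⟨v, hv, h, hh, e⟩ := h1 ((ga, 1) ^ n)
    refine ⟨(2 ^ (expSum (ev v).1).toAdd, 2 ^ (expSum (ev v).2).toAdd), ⟨?_, ?_⟩, ?_⟩
    · refine ⟨_, conj_short h1 h2 l1 (by rw [hl1]; exact total_gc_left) v hv, ?_⟩
      rw [hl1]
      exact act_conj _
    · refine ⟨_, conj_short h1 h2 l2 (by rw [hl2]; exact total_gc_right) v hv, ?_⟩
      rw [hl2]
      exact act_conj _
    · show (2 : ℚ) ^ (expSum (ev v).1).toAdd * 2 ^ (expSum (ev v).2).toAdd = 2 ^ n
      rw [← zpow_add₀ (by norm_num), ← toAdd_mul, ← total_apply, e, map_mul]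
      rw [MonoidHom.mem_ker] at hh
      rw [hh, one_mul, map_zpow, total_X0 (by simp [X0]), toAdd_zpow, toAdd_ofAdd]
      simp

section fg

/-- The automorphism of `F₂` inverting both generators. -/
def nu : F2 →* F2 := FreeGroup.lift fun i => (FreeGroup.of i)⁻¹

theorem nu_nu (g : F2) : nu (nu g) = g := by
  have : nu.comp nu = MonoidHom.id F2 := by
    ext i
    simp [nu]
  exact DFunLike.congr_fun this g

theorem expSum_nu (g : F2) : expSum (nu g) = (expSum g)⁻¹ := by
  have : expSum.comp nu = (expSum)⁻¹ := by
    ext i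
    simp [nu, expSum]
  exact DFunLike.congr_fun this g

/-- Generators of the kernel. -/
def kerGens : Set (F2 × F2) := {(ga, ga⁻¹), (gb, gb⁻¹), (1, gc)}

theorem graph_mem (g : F2) : (g, nu g) ∈ Subgroup.closure kerGens := by
  induction g using FreeGroup.induction_on with
  | C1 => rw [map_one]; exact Subgroup.one_mem _
  | of i =>
    fin_cases i
    · exact Subgroup.subset_closure (by simp [kerGens, nu, ga])
    · exact Subgroup.subset_closure (by simp [kerGens, nu, gb])
  | inv_of i h =>
    have := Subgroup.inv_mem _ h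
    rwa [Prod.inv_mk, ← map_inv] at this
  | mul g h hg hh =>
    have := Subgroup.mul_mem _ hg hh
    rwa [Prod.mk_mul_mk, ← map_mul] at this

/-- The elements `w` such that `(1, w)` is in the subgroup generated by `kerGens`. -/
def N : Subgroup F2 := (Subgroup.closure kerGens).comap (MonoidHom.inr F2 F2)

instance : N.Normal := by
  constructor
  intro w hw x
  show (1, x * w * x⁻¹) ∈ Subgroup.closure kerGens
  have hw' : (1, w) ∈ Subgroup.closure kerGens := hw
  have hx := graph_mem (nu x)
  rw [nu_nu] at hx
  have := Subgroup.mul_mem _ (Subgroup.mul_mem _ hx hw') (Subgroup.inv_mem _ hx)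
  simpa using this

theorem mem_N (w : F2) (hw : expSum w = 1) : w ∈ N := by
  have h1 : QuotientGroup.mk' N = (zpowersHom (F2 ⧸ N) (QuotientGroup.mk' N ga)).comp expSum := by
    ext i
    fin_cases i
    · simp [expSum, ga]
    · have : gc ∈ N := by
        show (1, gc) ∈ Subgroup.closure kerGens
        exact Subgroup.subset_closure (by simp [kerGens])
      have h2 : (QuotientGroup.mk' N gb) = QuotientGroup.mk' N ga := by
        rw [QuotientGroup.mk'_eq_mk']
        refine ⟨gb⁻¹ * ga, ?_, by group⟩
        have h3 := Subgroup.Normal.conj_mem (inferInstance : N.Normal) _ this gb⁻¹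
        have h4 : gb⁻¹ * gc * gb⁻¹⁻¹ = gb⁻¹ * ga := by rw [gc]; group
        rw [← h4]; exact h3
      simpa [expSum, gb] using h2
  have h2 := DFunLike.congr_fun h1 w
  rw [MonoidHom.comp_apply, hw, map_one] at h2
  exact (QuotientGroup.eq_one_iff w).mp h2

theorem ker_fg : totalExpSum.ker.FG := by
  rw [Subgroup.fg_iff]
  refine ⟨kerGens, ?_, by unfold kerGens; exact Set.toFinite _⟩
  apply le_antisymm
  · rw [Subgroup.closure_le]
    rintro g (h | h | h)
    · rw [h, SetLike.mem_coe, MonoidHom.mem_ker, total_apply]; simp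
    · rw [h, SetLike.mem_coe, MonoidHom.mem_ker, total_apply]; simp
    · rw [h]; exact total_gc_right
  · rintro ⟨u, v⟩ huv
    rw [MonoidHom.mem_ker, total_apply] at huv
    have h1 : ((u, v) : F2 × F2) = (u, nu u) * (1, (nu u)⁻¹ * v) := by simp
    rw [h1]
    refine Subgroup.mul_mem _ (graph_mem u) ?_
    have h2 : (nu u)⁻¹ * v ∈ N := by
      apply mem_N
      rw [map_mul, map_inv, expSum_nu, inv_inv]
      exact huv
    exact h2

end fg

theorem closure_X0 : Subgroup.closure X0 = ⊤ := by
  rw [eq_top_iff]
  rintro ⟨u, v⟩ -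
  have h1 : ((u, v) : F2 × F2) = MonoidHom.inl F2 F2 u * MonoidHom.inr F2 F2 v := by simp
  rw [h1]
  refine Subgroup.mul_mem _ ?_ ?_
  · have : (⊤ : Subgroup F2) ≤ (Subgroup.closure X0).comap (MonoidHom.inl F2 F2) := by
      rw [← FreeGroup.closure_range_of, Subgroup.closure_le]
      rintro _ ⟨i, rfl⟩
      show (FreeGroup.of i, 1) ∈ Subgroup.closure X0
      apply Subgroup.subset_closure
      fin_cases i <;> simp [X0, ga, gb]
    exact this (Subgroup.mem_top u)
  · have : (⊤ : Subgroup F2) ≤ (Subgroup.closure X0).comap (MonoidHom.inr F2 F2) := by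
      rw [← FreeGroup.closure_range_of, Subgroup.closure_le]
      rintro _ ⟨i, rfl⟩
      show (1, FreeGroup.of i) ∈ Subgroup.closure X0
      apply Subgroup.subset_closure
      fin_cases i <;> simp [X0, ga, gb]
    exact this (Subgroup.mem_top v)

/-- Let `H` be the kernel of the homomorphism `F₂ × F₂ → ℤ` sending the four standard generators to
`1`. Then `H` is normal and finitely generated, the pair `(F₂ × F₂, H)` is coset automatic, but it
is not strongly coset automatic. -/
theorem result :
    Group.FG (F2 × F2) ∧ totalExpSum.ker.Normal ∧ totalExpSum.ker.FG ∧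
      CosetAutomatic totalExpSum.ker ∧ ¬ StronglyCosetAutomatic totalExpSum.ker := by
  refine ⟨?_, inferInstance, ker_fg, ⟨X0, ?_, closure_X0, cosetAutomatic⟩, ?_⟩
  · rw [Group.fg_iff]
    exact ⟨X0, closure_X0, by unfold X0; exact Set.toFinite _⟩
  · unfold X0; exact Set.toFinite _
  · rintro ⟨X, hX, hgen, h⟩
    exact not_strong X hX hgen h

end Pool.Agent.Results.MP_6b1724_al.NotStrong
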